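import Pool.Agent.W207.PR.A1
import Pool.Agent.W613.PR.Test

/-! # The difference of two shifts of an even test function, differences of odd functions -/

set_option autoImplicit false

open Filter Topology Set MeasureTheory
open scoped BigOperators ContDiff

namespace Pool.Agent.W346.PR

open W207.PR Pool.Agent.W613.PR

/-- the cut-off cosine -/
noncomputable def bp : ContDiffBump (0 : ℝ) := ⟨1, 2, one_pos, one_lt_two⟩

noncomputable def FF (s : ℝ) (x : ℝ) : ℝ := bp x * Real.cos (2 * Real.pi * s * x)

lemma FF_smooth (s : ℝ) : ContDiff ℝ ∞ (FF s) := by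
  unfold FF
  refine bp.contDiff.mul ?_
  exact Real.contDiff_cos.comp (contDiff_const.mul contDiff_id)

lemma FF_supp (s : ℝ) : HasCompactSupport (FF s) := bp.hasCompactSupport.mul_right

lemma FF_even (s x : ℝ) : FF s (-x) = FF s x := by
  unfold FF
  rw [bp.neg]
  congr 1
  rw [← Real.cos_neg]
  congr 1
  ring

lemma FF_eq (s x : ℝ) (hx : |x| ≤ 1) : FF s x = Real.cos (2 * Real.pi * s * x) := by
  unfold FF
  rw [bp.one_of_mem_closedBall, one_mul]
  rw [mem_closedBall_zero_iff, Real.norm_eq_abs]
  exact hx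

lemma Q_eq (s a : ℝ) (ha : |a| ≤ 1) :
    2 * Real.pi * s * a * Q 0 (FF s) a = Real.sin (2 * Real.pi * s * a) := by
  unfold Q
  have h1 : ∫ t in (0 : ℝ)..1, t ^ 0 * FF s (t * a) =
      ∫ t in (0 : ℝ)..1, Real.cos (2 * Real.pi * s * a * t) := by
    refine intervalIntegral.integral_congr fun t ht => ?_
    rw [uIcc_of_le zero_le_one] at ht
    simp only [pow_zero, one_mul]
    rw [FF_eq]
    · congr 1
      ring
    · rw [abs_mul, abs_of_nonneg ht.1]
      exact mul_le_one₀ ht.2 (abs_nonneg _) ha
  rw [h1, ← intervalIntegral.integral_const_mul]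
  have h2 : ∀ t ∈ uIcc (0 : ℝ) 1, HasDerivAt (fun t => Real.sin (2 * Real.pi * s * a * t))
      (2 * Real.pi * s * a * Real.cos (2 * Real.pi * s * a * t)) t := by
    intro t _
    have h3 : HasDerivAt (fun t : ℝ => 2 * Real.pi * s * a * t) (2 * Real.pi * s * a) t := by
      simpa using (hasDerivAt_id t).const_mul (2 * Real.pi * s * a)
    exact h3.sin.congr_deriv (by ring)
  rw [intervalIntegral.integral_eq_sub_of_hasDerivAt h2
    ((by fun_prop : Continuous fun t : ℝ =>
      2 * Real.pi * s * a * Real.cos (2 * Real.pi * s * a * t)).intervalIntegrable _ _)]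
  simp

lemma tst_int (ψ : ℝ → ℝ) (hψ : Tst ψ) (g : ℝ → ℝ) (hg : Continuous g) :
    Integrable (fun a => ψ a * g a) := by
  obtain ⟨μ, -, -, hμ⟩ := hψ.supp
  have h2 : HasCompactSupport ψ := by
    refine HasCompactSupport.intro (isCompact_Icc (a := -μ) (b := μ)) ?_
    intro x hx
    apply hμ
    by_contra h
    push Not at h
    exact hx (abs_le.1 h.le)
  have h3 : Continuous ψ := (hψ.smooth 0).continuous
  exact (h3.mul hg).integrable_of_hasCompactSupport h2.mul_right

theorem shift : S_SHIFT := by
  intro ψ hψ s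
  obtain ⟨μ, hμ0, hμ1, hμ⟩ := hψ.supp
  refine ⟨fun a => 2 * s * (ψ a * Q 0 (FF s) a), ⟨?_, ?_, ?_⟩, ?_⟩
  · intro n
    exact contDiff_const.mul ((hψ.smooth n).mul (contDiff_Q n (FF s) (FF_smooth s) (FF_supp s) 0))
  · intro x
    rw [hψ.even]
    congr 2
    unfold Q
    simp only [mul_neg, FF_even]
  · exact ⟨μ, hμ0, hμ1, fun x hx => by rw [hμ x hx]; ring⟩
  · intro v
    unfold dt ct
    have h1 : ∀ a : ℝ, 2 * Real.pi * a * (2 * s * (ψ a * Q 0 (FF s) a)) *
        Real.sin (2 * Real.pi * a * v) =
        ψ a * Real.cos (2 * Real.pi * a * (v - s)) - ψ a * Real.cos (2 * Real.pi * a * (v + s)) := by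
      intro a
      have h2 : ψ a * (2 * Real.pi * s * a * Q 0 (FF s) a) =
          ψ a * Real.sin (2 * Real.pi * s * a) := by
        by_cases ha : |a| ≤ 1
        · rw [Q_eq s a ha]
        · push Not at ha
          rw [hμ a (by linarith)]
          ring
      have h3 : Real.cos (2 * Real.pi * a * (v - s)) - Real.cos (2 * Real.pi * a * (v + s)) =
          2 * Real.sin (2 * Real.pi * s * a) * Real.sin (2 * Real.pi * a * v) := by
        have e1 : 2 * Real.pi * a * (v - s) = 2 * Real.pi * a * v - 2 * Real.pi * s * a := by ring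
        have e2 : 2 * Real.pi * a * (v + s) = 2 * Real.pi * a * v + 2 * Real.pi * s * a := by ring
        rw [e1, e2, Real.cos_sub, Real.cos_add]
        ring
      rw [← mul_sub, h3]
      linear_combination (2 * Real.sin (2 * Real.pi * a * v)) * h2
    simp_rw [h1]
    rw [integral_sub (tst_int ψ hψ _ (by fun_prop)) (tst_int ψ hψ _ (by fun_prop))]
    ring

lemma ct_even (ψ : ℝ → ℝ) (x : ℝ) : ct ψ (-x) = ct ψ x := by
  unfold ct
  refine integral_congr_ae (Eventually.of_forall fun a => ?_)
  simp only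
  rw [← Real.cos_neg]
  congr 2
  ring

lemma int_even (g : ℝ → ℝ) (hg : ∀ x, g (-x) = g x) : ∫ x, g x = 2 * ∫ x in Ioi (0 : ℝ), g x := by
  rw [← integral_comp_abs]
  refine integral_congr_ae (Eventually.of_forall fun x => ?_)
  simp only
  rcases abs_choice x with h | h <;> rw [h]
  exact (hg x).symm

theorem diff : S_DIFF := by
  intro hDEC hSHIFT O hO hodd C hC hzero s hs ψ hψ
  obtain ⟨hd, -, hdec⟩ := hDEC ψ hψ
  obtain ⟨K, hK0, hK⟩ := hdec 3
  obtain ⟨ψ', hψ', hdt⟩ := hSHIFT ψ hψ s
  set φ : ℝ → ℝ := ct ψ with hφ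
  have hφe : ∀ u, φ (-u) = φ u := fun u => ct_even ψ u
  have hφc : Continuous φ := by
    rw [continuous_iff_continuousAt]
    exact fun x => (hd x).continuousAt
  -- integrability
  have hint : ∀ r : ℝ, Integrable (fun v => φ (v + r) * O v) := by
    intro r
    have h1 : Integrable (fun v : ℝ => K * |C| * (1 + |r|) * (1 + ‖v + r‖) ^ (-(2 : ℝ))) := by
      have h2 : Integrable (fun v : ℝ => (1 + ‖v‖) ^ (-(2 : ℝ))) :=
        integrable_one_add_norm (by simp)
      exact (h2.comp_add_right r).const_mul _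
    refine h1.mono' ?_ ?_
    · exact ((hφc.comp (continuous_add_const r)).measurable.mul hO).aestronglyMeasurable
    · filter_upwards [hC] with v hv
      rw [norm_mul, Real.norm_eq_abs, Real.norm_eq_abs, Real.norm_eq_abs]
      have h2 := (hK (v + r)).1
      have h3 : 0 < 1 + |v + r| := by positivity
      have h4 : |φ (v + r)| ≤ K / (1 + |v + r|) ^ 3 := by
        rw [le_div_iff₀ (by positivity)]
        exact h2
      have h5 : |O v| ≤ |C| * ((1 + |r|) * (1 + |v + r|)) := by
        have h6 : 1 + |v| ≤ (1 + |r|) * (1 + |v + r|) := by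
          have h7 : |v| ≤ |v + r| + |r| := by
            have := abs_sub (v + r) r
            rwa [add_sub_cancel_right] at this
          nlinarith [abs_nonneg r, abs_nonneg (v + r)]
        calc |O v| ≤ C * (1 + |v|) := hv
          _ ≤ |C| * (1 + |v|) := mul_le_mul_of_nonneg_right (le_abs_self C) (by positivity)
          _ ≤ _ := mul_le_mul_of_nonneg_left h6 (abs_nonneg _)
      calc |φ (v + r)| * |O v| ≤ K / (1 + |v + r|) ^ 3 * (|C| * ((1 + |r|) * (1 + |v + r|))) :=
            mul_le_mul h4 h5 (abs_nonneg _) (by positivity)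
        _ = K * |C| * (1 + |r|) * (1 + |v + r|) ^ (-(2 : ℝ)) := by
            rw [Real.rpow_neg h3.le, Real.rpow_two]
            field_simp
  have hint2 : ∀ r : ℝ, Integrable (fun u => φ u * O (u + r)) := by
    intro r
    have h1 := (hint (-r)).comp_add_right r
    refine h1.congr (Eventually.of_forall fun u => ?_)
    simp only
    rw [add_neg_cancel_right]
  have htr : ∀ r : ℝ, ∫ u, φ u * O (u + r) = ∫ v, φ (v - r) * O v := by
    intro r
    rw [← integral_add_right_eq_self (fun v => φ (v - r) * O v) r]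
    refine integral_congr_ae (Eventually.of_forall fun u => ?_)
    simp only
    rw [add_sub_cancel_right]
  -- the chain
  have h1 : ∫ u, φ u * (O (u + s) - O (u - s)) = 2 * ∫ u in Ioi (0 : ℝ), φ u *
      (O (u + s) - O (u - s)) := by
    refine int_even _ fun u => ?_
    have e1 : -u + s = -(u - s) := by ring
    have e2 : -u - s = -(u + s) := by ring
    rw [hφe u, e1, e2, hodd, hodd]
    ring
  have h2 : ∫ u, φ u * (O (u + s) - O (u - s)) = ∫ v, (φ (v - s) * O v - φ (v + s) * O v) := by
    have e1 : (fun u => φ u * (O (u + s) - O (u - s))) = fun u => φ u * O (u + s) -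
        φ u * O (u + -s) := by
      funext u
      rw [← sub_eq_add_neg]
      ring
    have i1 : Integrable (fun v => φ (v - s) * O v) := by
      simpa only [sub_eq_add_neg] using hint (-s)
    rw [e1, integral_sub (hint2 s) (hint2 (-s)), htr, htr, integral_sub i1 (hint s)]
    simp only [sub_neg_eq_add]
  have h3 : ∫ v, (φ (v - s) * O v - φ (v + s) * O v) = -∫ v, dt ψ' v * O v := by
    rw [← integral_neg]
    refine integral_congr_ae (Eventually.of_forall fun v => ?_)
    simp only
    rw [hdt v]
    ring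
  have h4 : ∫ v, dt ψ' v * O v = 2 * ∫ v in Ioi (0 : ℝ), dt ψ' v * O v := by
    refine int_even _ fun v => ?_
    have e1 : -v + s = -(v - s) := by ring
    have e2 : -v - s = -(v + s) := by ring
    rw [hdt, hdt, e1, e2, hφe, hφe, hodd]
    ring
  rw [hzero ψ' hψ'] at h4
  linarith

end Pool.Agent.W346.PR
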